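import Pool.Agent.H37.CNQ.Stmts

/-!
# Row TRV of board `cnq`: transitivity on the places above a place
-/

set_option autoImplicit false

namespace Pool.CND

open Finset

/-- the place `z ↦ P.ord (σ z)` -/
noncomputable def trvPl_H66 {k L : Type} [Field k] [Field L] [Algebra k L] (P : Place k L)
    (σ : L ≃ₐ[k] L) : Place k L where
  ord z := P.ord (σ z)
  ord_mul x y hx hy := by
    rw [map_mul]
    exact P.ord_mul _ _ (by simpa using hx) (by simpa using hy)
  ord_add x y hx hy hxy := by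
    rw [map_add]
    refine P.ord_add _ _ (by simpa using hx) (by simpa using hy) ?_
    rw [← map_add]
    exact (map_ne_zero_iff _ σ.injective).2 hxy
  ord_surj := by
    obtain ⟨x, hx, h1⟩ := P.ord_surj
    exact ⟨σ.symm x, by simpa using hx, by rw [AlgEquiv.apply_symm_apply]; exact h1⟩
  ord_const c hc := by
    rw [AlgEquiv.commutes]
    exact P.ord_const c hc
  residue x hx h0 := by
    obtain ⟨c, hc⟩ := P.residue (σ x) (by simpa using hx) h0
    refine ⟨c, ?_⟩
    rcases hc with hc | hc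
    · left
      apply σ.injective
      rw [hc, AlgEquiv.commutes]
    · right
      rw [map_sub, AlgEquiv.commutes]
      exact hc

theorem trv_prod_H66 {k L : Type} [Field k] [Field L] [Algebra k L] (P : Place k L) {ι : Type}
    (s : Finset ι) (f : ι → L) (h : ∀ i, f i ≠ 0) :
    P.ord (∏ i ∈ s, f i) = ∑ i ∈ s, P.ord (f i) := by
  classical
  induction s using Finset.induction_on with
  | empty =>
    rw [Finset.prod_empty, Finset.sum_empty]
    have h1 := P.ord_const 1 one_ne_zero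
    rwa [map_one] at h1
  | insert a s ha ih =>
    rw [Finset.prod_insert ha, Finset.sum_insert ha,
      P.ord_mul _ _ (h a) (Finset.prod_ne_zero_iff.2 fun i _ => h i), ih]

theorem trv_thm_H66 (hWAP : S_WAP) : S_TRV := by
  intro k L G _ _ _ _ _ ρ C P P' hyp
  classical
  by_contra hcon
  push Not at hcon
  have : Fintype G := Fintype.ofFinite G
  let ι₁ : Type := {n : G // n ∈ C}
  let ι₂ : Type := {n : G // n ∈ C ∧ ∃ x : L, x ≠ 0 ∧ P'.ord x ≠ P'.ord (ρ n x)}
  have f1 : Fintype ι₁ := Fintype.ofFinite ι₁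
  have f2 : Fintype ι₂ := Fintype.ofFinite ι₂
  obtain ⟨a, ha, a1, a2⟩ := hWAP k L (ι₁ ⊕ ι₂) P'
    (Sum.elim (fun n => trvPl_H66 P (ρ n.1)) (fun n => trvPl_H66 P' (ρ n.1))) (by
      rintro (⟨n, hn⟩ | ⟨n, hn, x, hx, hne⟩)
      · obtain ⟨z, hz, hne⟩ := hcon n hn
        exact ⟨z, hz, hne⟩
      · exact ⟨x, hx, hne⟩)
  have hne : ∀ n : G, ρ n a ≠ 0 := fun n => by simpa using ha
  let s : Finset G := Finset.univ.filter fun n => n ∈ C
  have hs0 : ∏ n ∈ s, ρ n a ≠ 0 := Finset.prod_ne_zero_iff.2 fun n _ => hne n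
  have hinv : ∀ c ∈ C, ρ c (∏ n ∈ s, ρ n a) = ∏ n ∈ s, ρ n a := by
    intro n hn
    rw [map_prod]
    refine Finset.prod_bij (fun m _ => n * m) ?_ ?_ ?_ ?_
    · intro m hm
      rw [Finset.mem_filter] at hm ⊢
      exact ⟨Finset.mem_univ _, C.mul_mem hn hm.2⟩
    · intro m _ m' _ h
      exact mul_left_cancel h
    · intro m hm
      rw [Finset.mem_filter] at hm
      refine ⟨n⁻¹ * m, ?_, by group⟩
      rw [Finset.mem_filter]
      exact ⟨Finset.mem_univ _, C.mul_mem (C.inv_mem hn) hm.2⟩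
    · intro m _
      rw [map_mul]
      rfl
  have h0 : P.ord (∏ n ∈ s, ρ n a) = 0 := by
    rw [trv_prod_H66 P s _ hne]
    refine Finset.sum_eq_zero fun n hn => ?_
    rw [Finset.mem_filter] at hn
    exact a2 (Sum.inl ⟨n, hn.2⟩)
  have h1 := hyp _ hs0 hinv h0
  rw [trv_prod_H66 P' s _ hne] at h1
  have h2 : ∀ n ∈ s, 0 ≤ P'.ord (ρ n a) := by
    intro n hn
    rw [Finset.mem_filter] at hn
    by_cases h : ∃ x : L, x ≠ 0 ∧ P'.ord x ≠ P'.ord (ρ n x)
    · exact le_of_eq (a2 (Sum.inr ⟨n, hn.2, h⟩)).symm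
    · push Not at h
      rw [← h a ha, a1]
      exact zero_le_one
  have h3 : (1 : G) ∈ s := Finset.mem_filter.2 ⟨Finset.mem_univ _, C.one_mem⟩
  have h4 := Finset.single_le_sum h2 h3
  rw [h1, map_one] at h4
  have h5 : P'.ord ((1 : L ≃ₐ[k] L) a) = 1 := a1
  omega

end Pool.CND
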